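import Pool.Agent.H293R3.RM.Asym

set_option autoImplicit false
set_option linter.unusedSectionVars false
open MeasureTheory Filter Topology
open Pool.Agent.H716R2 hiding BM
open Pool.Agent.H293R3.RM

namespace Pool.Agent.H793R3.Rok

variable {X : Type*} [MeasurableSpace X]

theorem bm_prod {r : ℕ} (T : X ≃ᵐ X) {f : Fin r → X → ℝ} (hf : ∀ i, BM (f i)) (t : Fin r → ℕ) :
    BM (fun x => ∏ i, f i ((⇑T)^[t i] x)) := by
  have := BM.prod (Finset.univ : Finset (Fin r)) (g := fun i x => f i ((⇑T)^[t i] x))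
    (fun i => (hf i).comp T (t i))
  exact this

theorem int_shift {μ : Measure X} [IsProbabilityMeasure μ] {T : X ≃ᵐ X}
    (hT : MeasurePreserving T μ μ) {g : X → ℝ} (hg : BM g) (c : ℕ) :
    ∫ x, g ((⇑T)^[c] x) ∂μ = ∫ x, g x ∂μ := by
  have h := integral_map (μ := μ) (φ := (⇑T)^[c]) (f := g) (iter_meas T c).aemeasurable
    (by rw [(iter_mp hT c).map_eq]; exact hg.meas.aestronglyMeasurable)
  rw [(iter_mp hT c).map_eq] at h
  exact h.symm

theorem dev_shift {μ : Measure X} [IsProbabilityMeasure μ] {T : X ≃ᵐ X}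
    (hT : MeasurePreserving T μ μ) {r : ℕ} {f : Fin r → X → ℝ} (hf : ∀ i, BM (f i))
    (t : Fin r → ℕ) (c : ℕ) :
    dev μ T f (fun i => t i + c) = dev μ T f t := by
  unfold dev
  congr 1
  have h := int_shift hT (bm_prod T hf t) c
  rw [← h]
  refine integral_congr_ae (Eventually.of_forall fun x => ?_)
  refine Finset.prod_congr rfl fun i _ => ?_
  rw [Function.iterate_add_apply]

/-- conclusion along spread sequences from the conclusion for times given by gaps -/
theorem spread_of_gaps {r : ℕ} (P : (Fin (r + 1) → ℕ) → Prop)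
    (hP : ∃ N : ℕ, ∀ m : ℕ → ℕ, (∀ j < r, N ≤ m j) → P (fun i => ∑ j ∈ Finset.range i, m j))
    (hsh : ∀ t c, P t → P (fun i => t i + c))
    (s : ℕ → Fin (r + 1) → ℕ) (hs : Spread s) : ∀ᶠ n in atTop, P (s n) := by
  obtain ⟨N, hN⟩ := hP
  filter_upwards [hs N] with n hgap
  let sn : ℕ → ℕ := fun i => s n ⟨min i r, by omega⟩
  have hmono : Monotone sn := by
    intro i j hij
    simp only [sn]
    rcases Nat.lt_or_ge (min i r) (min j r) with h1 | h1
    · have := hgap ⟨min i r, by omega⟩ ⟨min j r, by omega⟩ h1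
      omega
    · have : min i r = min j r := by omega
      simp [this]
  have hsn : ∀ i : Fin (r + 1), sn i = s n i := by
    intro i
    simp only [sn]
    congr 1
    apply Fin.ext
    simp only
    omega
  have hm := hN (fun j => sn (j + 1) - sn j) (by
    intro j hj
    have := hgap ⟨min j r, by omega⟩ ⟨min (j + 1) r, by omega⟩ (by
      change min j r < min (j + 1) r
      omega)
    simp only [sn]
    omega)
  simp only [Finset.sum_range_tsub hmono] at hm
  have h2 := hsh _ (sn 0) hm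
  convert h2 using 2 with i
  have h1 : sn 0 ≤ sn i := hmono (Nat.zero_le _)
  rw [← hsn i]
  omega

theorem sep_mono {m D D' : ℕ} (h : D' ≤ D) {a b : Fin m → ℕ} (hs : Sep D a b) : Sep D' a b := by
  obtain ⟨j, hj⟩ := hs
  exact ⟨j, by omega⟩

theorem spread_of_le {r : ℕ} {s t : ℕ → Fin r → ℕ} (hs : Spread s) (M : ℕ)
    (h : ∀ᶠ n in atTop, ∀ i j, i < j → s n j - s n i ≤ t n j - t n i + M ∧ t n i ≤ t n j) :
    Spread t := by
  intro N
  filter_upwards [hs (N + M), h] with n h1 h2 i j hij
  have h3 := h1 i j hij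
  obtain ⟨h4, h5⟩ := h2 i j hij
  omega

end Pool.Agent.H793R3.Rok
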