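import Pool.Agent.H793R3.Rok.A

set_option autoImplicit false
set_option linter.unusedSectionVars false
open MeasureTheory Filter Topology
open Pool.Agent.H716R2 hiding BM
open Pool.Agent.H293R3.RM

namespace Pool.Agent.H793R3.Rok

variable {X : Type*} [MeasurableSpace X]

/-- Multilinear expansion of the deviation of a sum of shifted functions. -/
theorem expand {μ : Measure X} [IsProbabilityMeasure μ] {T : X ≃ᵐ X}
    (hT : MeasurePreserving T μ μ) {r : ℕ} {f : Fin r → X → ℝ} (hf : ∀ i, BM (f i))
    (c : Fin r → ℕ) (t : Fin r → ℕ) :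
    dev μ T (fun _ : Fin r => fun x => ∑ j, f j ((⇑T)^[c j] x)) t
      = ∑ i : Fin r → Fin r, dev μ T (fun l => f (i l)) (fun l => t l + c (i l)) := by
  classical
  unfold dev
  rw [Finset.sum_sub_distrib]
  congr 1
  · rw [← integral_finsetSum _ (fun i _ => (bm_prod T (fun l => hf (i l)) _).int)]
    refine integral_congr_ae (Eventually.of_forall fun x => ?_)
    simp only
    rw [Finset.prod_univ_sum, Fintype.piFinset_univ]
    refine Finset.sum_congr rfl fun i _ => Finset.prod_congr rfl fun l _ => ?_
    rw [← Function.iterate_add_apply, add_comm]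
  · have h : ∀ j, ∫ x, f j ((⇑T)^[c j] x) ∂μ = ∫ x, f j x ∂μ := fun j => int_shift hT (hf j) (c j)
    beta_reduce
    rw [integral_finsetSum _ (fun i _ => ((hf i).comp T (c i)).int)]
    simp only [h]
    rw [Finset.prod_univ_sum, Fintype.piFinset_univ]

theorem exists_shift {r : ℕ} (i : Fin (r + 1) → Fin (r + 1)) (hi : i ≠ id) :
    ∃ l : Fin (r + 1), l ≠ 0 ∧ ((l : ℕ) : ℤ) - ((i l : ℕ) : ℤ) + ((i 0 : ℕ) : ℤ) ≠ 0 := by
  by_contra hcon
  push Not at hcon
  apply hi
  have h0 : ((i 0 : ℕ) : ℤ) = 0 := by
    by_cases hr : r = 0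
    · subst hr
      have := (i 0).2
      omega
    · have h1 := hcon (Fin.last r) (by
        intro h
        have := congrArg Fin.val h
        simp at this
        exact hr this)
      have h2 := (i (Fin.last r)).2
      simp only [Fin.val_last] at h1
      omega
  funext l
  apply Fin.ext
  simp only [id]
  by_cases hl : l = 0
  · subst hl
    simp only [Fin.val_zero]
    omega
  · have := hcon l hl
    omega

end Pool.Agent.H793R3.Rok
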