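import Pool.Agent.H793R3.Rok.B

set_option autoImplicit false
set_option linter.unusedSectionVars false
open MeasureTheory Filter Topology
open Pool.Agent.H716R2 hiding BM
open Pool.Agent.H293R3.RM

namespace Pool.Agent.H793R3.Rok

variable {X : Type*} [MeasurableSpace X]

/-- the shift exponents of the pattern `i` -/
def bb {r : ℕ} (M : ℕ) (i : Fin r → Fin r) (v : ℕ) (l : Fin r) : ℕ := v * l + (M - v) * (i l)

/-- normalised shift exponents -/
def aa {r : ℕ} (M : ℕ) (i : Fin (r + 1) → Fin (r + 1)) (v : ℕ) (l : Fin (r + 1)) : ℕ :=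
  if l = 0 then 0 else M * (r + 1) + bb M i v l - bb M i v 0

theorem bb_le {r : ℕ} {M v : ℕ} (hv : v ≤ M) (i : Fin (r + 1) → Fin (r + 1)) :
    bb M i v 0 ≤ M * (r + 1) := by
  unfold bb
  have h1 : (M - v) * (i 0 : ℕ) ≤ M * (r + 1) :=
    Nat.mul_le_mul (Nat.sub_le _ _) (i 0).2.le
  simpa using h1

theorem aa_sep {r : ℕ} {M D v w : ℕ} (hv : v ≤ M) (hw : w ≤ M) (hvw : v + D ≤ w ∨ w + D ≤ v)
    (i : Fin (r + 1) → Fin (r + 1)) (hi : i ≠ id) : Sep D (aa M i v) (aa M i w) := by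
  obtain ⟨l, hl0, hl⟩ := exists_shift i hi
  refine ⟨l, ?_⟩
  have h1 := bb_le hv i
  have h2 := bb_le hw i
  unfold aa
  rw [if_neg hl0, if_neg hl0]
  obtain ⟨v', hv'⟩ : ∃ v', M = v + v' := ⟨M - v, by omega⟩
  obtain ⟨w', hw'⟩ : ∃ w', M = w + w' := ⟨M - w, by omega⟩
  have e1 : ((M * (r + 1) + bb M i v l - bb M i v 0 : ℕ) : ℤ)
      = M * (r + 1) + M * (((i l : ℕ) : ℤ) - ((i 0 : ℕ) : ℤ))
        + v * (((l : ℕ) : ℤ) - ((i l : ℕ) : ℤ) + ((i 0 : ℕ) : ℤ)) := by
    rw [Nat.cast_sub (by omega)]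
    unfold bb
    push_cast [Nat.cast_sub hv]
    simp only [Fin.val_zero]
    push_cast
    ring
  have e2 : ((M * (r + 1) + bb M i w l - bb M i w 0 : ℕ) : ℤ)
      = M * (r + 1) + M * (((i l : ℕ) : ℤ) - ((i 0 : ℕ) : ℤ))
        + w * (((l : ℕ) : ℤ) - ((i l : ℕ) : ℤ) + ((i 0 : ℕ) : ℤ)) := by
    rw [Nat.cast_sub (by omega)]
    unfold bb
    push_cast [Nat.cast_sub hw]
    simp only [Fin.val_zero]
    push_cast
    ring
  zify
  rw [e1, e2]
  set z : ℤ := ((l : ℕ) : ℤ) - ((i l : ℕ) : ℤ) + ((i 0 : ℕ) : ℤ) with hz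
  rcases lt_or_gt_of_ne hl with hz1 | hz1 <;> rcases hvw with h3 | h3
  · right
    have h4 : (v : ℤ) + D ≤ w := by exact_mod_cast h3
    nlinarith
  · left
    have h4 : (w : ℤ) + D ≤ v := by exact_mod_cast h3
    nlinarith
  · left
    have h4 : (v : ℤ) + D ≤ w := by exact_mod_cast h3
    nlinarith
  · right
    have h4 : (w : ℤ) + D ≤ v := by exact_mod_cast h3
    nlinarith

theorem arith1 (x y m a b : ℕ) (h1 : y + m ≤ x) (h2 : b ≤ m) :
    x + a = (x - y - m) + (m + a - b) + (y + b) := by omega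

/-- Deviations of order `k + 2` of arbitrary bounded functions tend to `0` if those with a single
function do. -/
theorem main {μ : Measure X} [IsProbabilityMeasure μ] {T : X ≃ᵐ X}
    (hT : MeasurePreserving T μ μ) {k : ℕ} (hk : 1 ≤ k) (hfact : FactSet μ T (k + 1))
    {f : Fin (k + 2) → X → ℝ} (hf : ∀ i, BM (f i))
    (hd : ∀ c : Fin (k + 2) → ℕ, ∀ s : ℕ → Fin (k + 2) → ℕ, Spread s → ∀ ε : ℝ, 0 < ε →
      ∀ᶠ n in atTop,
        |dev μ T (fun _ : Fin (k + 2) => fun x => ∑ j, f j ((⇑T)^[c j] x)) (s n)| < ε)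
    (s : ℕ → Fin (k + 2) → ℕ) (hs : Spread s) {ε : ℝ} (hε : 0 < ε) :
    ∀ᶠ n in atTop, |dev μ T f (s n)| < ε := by
  classical
  set V : (Fin (k + 2) → Fin (k + 2)) → ℝ := fun i =>
    ∏ l, (∫ x, (f (i l) x - ∫ y, f (i l) y ∂μ) ^ 2 ∂μ) with hV
  have hVn : ∀ i, 0 ≤ V i := fun i => Finset.prod_nonneg fun l _ => integral_nonneg fun x => sq_nonneg _
  set C : ℝ := ∑ i, (V i + 1) with hC
  set cd : ℝ := (Fintype.card (Fin (k + 2) → Fin (k + 2)) : ℝ) with hcd
  have hcd0 : 0 ≤ cd := Nat.cast_nonneg _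
  set ε' : ℝ := ε / (2 * (cd + 1)) with hε'
  have hε'0 : 0 < ε' := by positivity
  obtain ⟨K, hK⟩ := exists_nat_gt (C / ε' ^ 2)
  have hK1 : C < K * ε' ^ 2 := by
    rwa [div_lt_iff₀ (by positivity)] at hK
  choose D0 hD1 hD2 using fun i : Fin (k + 2) → Fin (k + 2) =>
    bessel_corr hT hk hfact (fun l => f (i l)) (fun l => hf (i l)) one_pos K
  set D : ℕ := ∑ i, D0 i with hD
  have hD3 : ∀ i, D0 i ≤ D := fun i => Finset.single_le_sum (fun _ _ => Nat.zero_le _) (Finset.mem_univ i)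
  set M : ℕ := K * D with hM
  have hvM : ∀ p : Fin K, (p : ℕ) * D ≤ M := fun p => Nat.mul_le_mul_right _ p.2.le
  -- base times
  let t : ℕ → Fin (k + 2) → ℕ := fun n l => s n l - M * l
  let w : ℕ → Fin (k + 2) → ℕ := fun n l => if l = 0 then 0 else t n l - t n 0 - M * (k + 2)
  have hbig : ∀ᶠ n in atTop, ∀ i j : Fin (k + 2), i < j →
      s n i + (M * (k + 2) + M * (k + 2)) ≤ s n j := hs _
  have hml : ∀ l : Fin (k + 2), M * (l : ℕ) ≤ M * (k + 2) := fun l => Nat.mul_le_mul_left _ l.2.le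
  have hts : ∀ᶠ n in atTop, (∀ l : Fin (k + 2), M * (l : ℕ) ≤ s n l) ∧
      ∀ l : Fin (k + 2), l ≠ 0 → t n 0 + M * (k + 2) ≤ t n l := by
    filter_upwards [hbig] with n hn
    have h1 : ∀ l : Fin (k + 2), M * (l : ℕ) ≤ s n l := by
      intro l
      by_cases hl : l = 0
      · subst hl
        simp
      · have h2 := hn 0 l (Fin.pos_of_ne_zero hl)
        have h3 := hml l
        omega
    refine ⟨h1, fun l hl => ?_⟩
    have h2 := hn 0 l (Fin.pos_of_ne_zero hl)
    have h3 := hml l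
    simp only [t, Fin.val_zero, mul_zero]
    omega
  have hspt : ∀ v : ℕ, Spread (fun n (l : Fin (k + 2)) => t n l + v * l) := by
    intro v N
    filter_upwards [hs (N + (M * (k + 2) + M * (k + 2))), hts] with n h1 h2 i j hij
    have h3 := h1 i j hij
    have h4 := h2.1 i
    have h5 := h2.1 j
    have h6 := hml j
    have h7 : v * (i : ℕ) ≤ v * (j : ℕ) := Nat.mul_le_mul_left _ hij.le
    simp only [t]
    omega
  have hspw : Spread w := by
    intro N
    filter_upwards [hs (N + (M * (k + 2) + M * (k + 2))), hts] with n h1 h2 i j hij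
    have h3 := h1 i j hij
    have hj0 : j ≠ 0 := fun h => by subst h; exact absurd hij (Fin.not_lt_zero i)
    have h4 := h2.1 i
    have h5 := h2.1 j
    have h6 := hml j
    have h8 := h2.2 j hj0
    have h10 := h1 0 j (Fin.pos_of_ne_zero hj0)
    simp only [w, if_neg hj0]
    by_cases hi0 : i = 0
    · rw [if_pos hi0]
      simp only [t, Fin.val_zero, mul_zero] at h8 ⊢
      omega
    · rw [if_neg hi0]
      have h9 := h2.2 i hi0
      simp only [t, Fin.val_zero, mul_zero] at h8 h9 ⊢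
      omega
  -- Bessel for every pattern
  have hB : ∀ i : Fin (k + 2) → Fin (k + 2), i ≠ id → ∀ᶠ n in atTop,
      ∑ p : Fin K, (dev μ T (fun l => f (i l))
        (fun l => t n l + ((p : ℕ) * D) * l + (M - (p : ℕ) * D) * (i l))) ^ 2 ≤ V i + 1 := by
    intro i hi
    have h1 := hD2 i (fun p => aa M i ((p : ℕ) * D)) (fun p => by simp [aa]) (fun p q hpq => by
      refine sep_mono (hD3 i) (aa_sep (hvM p) (hvM q) ?_ i hi)
      have hne : (p : ℕ) ≠ q := fun h => hpq (Fin.ext h)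
      rcases lt_or_gt_of_ne hne with h | h
      · left
        nlinarith [Nat.succ_le_of_lt h]
      · right
        nlinarith [Nat.succ_le_of_lt h]) w hspw
    filter_upwards [h1, hts] with n h2 h3
    refine le_trans (le_of_eq ?_) h2
    refine Finset.sum_congr rfl fun p _ => ?_
    congr 1
    have h8 := dev_shift hT (fun l => hf (i l)) (fun l => w n l + aa M i ((p : ℕ) * D) l)
      (t n 0 + bb M i ((p : ℕ) * D) 0)
    rw [← h8]
    congr 1
    funext l
    have h4 := bb_le (hvM p) i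
    by_cases hl : l = 0
    · subst hl
      simp only [w, aa, if_true, bb, Fin.val_zero, mul_zero, zero_add, add_zero]
    · simp only [w, aa, if_neg hl]
      have h5 := h3.2 l hl
      have h6 : t n l + (p : ℕ) * D * (l : ℕ) + (M - (p : ℕ) * D) * (i l : ℕ)
          = t n l + bb M i ((p : ℕ) * D) l := by unfold bb; ring
      rw [h6]
      exact (arith1 _ _ _ _ _ h5 h4)
  have hBall : ∀ᶠ n in atTop, ∀ i : Fin (k + 2) → Fin (k + 2), i ≠ id →
      ∑ p : Fin K, (dev μ T (fun l => f (i l))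
        (fun l => t n l + ((p : ℕ) * D) * l + (M - (p : ℕ) * D) * (i l))) ^ 2 ≤ V i + 1 := by
    rw [Filter.eventually_all]
    intro i
    by_cases hi : i = id
    · exact Eventually.of_forall fun n h => absurd hi h
    · filter_upwards [hB i hi] with n hn _ using hn
  have hdall : ∀ᶠ n in atTop, ∀ p : Fin K,
      |dev μ T (fun _ : Fin (k + 2) => fun x => ∑ j, f j ((⇑T)^[(M - (p : ℕ) * D) * j] x))
        (fun l => t n l + ((p : ℕ) * D) * l)| < ε / 2 := by
    rw [Filter.eventually_all]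
    intro p
    exact hd (fun j => (M - (p : ℕ) * D) * j) _ (hspt ((p : ℕ) * D)) (ε / 2) (by positivity)
  filter_upwards [hBall, hdall, hts] with n h1 h2 h3
  -- choose a good shift
  have h4 : ∑ p : Fin K, ∑ i ∈ Finset.univ.erase (id : Fin (k + 2) → Fin (k + 2)),
      (dev μ T (fun l => f (i l))
        (fun l => t n l + ((p : ℕ) * D) * l + (M - (p : ℕ) * D) * (i l))) ^ 2
      < ∑ _p : Fin K, ε' ^ 2 := by
    rw [Finset.sum_comm]
    have h5 : ∑ i ∈ Finset.univ.erase (id : Fin (k + 2) → Fin (k + 2)), ∑ p : Fin K,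
      (dev μ T (fun l => f (i l))
        (fun l => t n l + ((p : ℕ) * D) * l + (M - (p : ℕ) * D) * (i l))) ^ 2
      ≤ ∑ i ∈ Finset.univ.erase (id : Fin (k + 2) → Fin (k + 2)), (V i + 1) :=
      Finset.sum_le_sum fun i hi => h1 i (Finset.ne_of_mem_erase hi)
    have h6 : ∑ i ∈ Finset.univ.erase (id : Fin (k + 2) → Fin (k + 2)), (V i + 1) ≤ C :=
      Finset.sum_le_sum_of_subset_of_nonneg (Finset.erase_subset _ _)
        (fun i _ _ => add_nonneg (hVn i) zero_le_one)
    rw [Finset.sum_const, Finset.card_univ, Fintype.card_fin, nsmul_eq_mul]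
    linarith
  obtain ⟨p, -, hp⟩ := Finset.exists_lt_of_sum_lt h4
  have hsmall : ∀ i ∈ Finset.univ.erase (id : Fin (k + 2) → Fin (k + 2)),
      |dev μ T (fun l => f (i l))
        (fun l => t n l + ((p : ℕ) * D) * l + (M - (p : ℕ) * D) * (i l))| ≤ ε' := by
    intro i hi
    have h5 := Finset.single_le_sum (f := fun i => (dev μ T (fun l => f (i l))
        (fun l => t n l + ((p : ℕ) * D) * l + (M - (p : ℕ) * D) * (i l))) ^ 2)
        (fun i _ => sq_nonneg _) hi
    exact abs_le_of_sq_le_sq (h5.trans hp.le) hε'0.le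
  have h5 := expand hT hf (fun j => (M - (p : ℕ) * D) * j) (fun l => t n l + ((p : ℕ) * D) * l)
  rw [← Finset.add_sum_erase _ _ (Finset.mem_univ (id : Fin (k + 2) → Fin (k + 2)))] at h5
  have h6 : dev μ T (fun l => f (id l))
      (fun l => t n l + ((p : ℕ) * D) * l + (M - (p : ℕ) * D) * (id l : Fin (k + 2)))
      = dev μ T f (s n) := by
    congr 1
    funext l
    have h7 := h3.1 l
    have h8 := hvM p
    have h9 : ((p : ℕ) * D) * (l : ℕ) + (M - (p : ℕ) * D) * (l : ℕ) = M * l := by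
      rw [← add_mul, Nat.add_sub_cancel' h8]
    simp only [t, id]
    omega
  rw [h6] at h5
  have h7 : |∑ i ∈ Finset.univ.erase (id : Fin (k + 2) → Fin (k + 2)), dev μ T (fun l => f (i l))
        (fun l => t n l + ((p : ℕ) * D) * l + (M - (p : ℕ) * D) * (i l))| ≤ cd * ε' := by
    refine (Finset.abs_sum_le_sum_abs _ _).trans ?_
    refine (Finset.sum_le_sum hsmall).trans ?_
    rw [Finset.sum_const, nsmul_eq_mul]
    refine mul_le_mul_of_nonneg_right ?_ hε'0.le
    rw [hcd, ← Finset.card_univ]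
    exact_mod_cast Finset.card_le_card (Finset.erase_subset _ _)
  have h8 : cd * ε' < ε / 2 := by
    have h9 : (cd + 1) * ε' = ε / 2 := by
      rw [hε']
      field_simp
    nlinarith
  have h9 := h2 p
  rw [h5] at h9
  have h10 := abs_sub_abs_le_abs_sub (dev μ T f (s n))
    (-(∑ i ∈ Finset.univ.erase (id : Fin (k + 2) → Fin (k + 2)), dev μ T (fun l => f (i l))
        (fun l => t n l + ((p : ℕ) * D) * l + (M - (p : ℕ) * D) * (i l))))
  rw [sub_neg_eq_add, abs_neg] at h10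
  linarith

end Pool.Agent.H793R3.Rok
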