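import Pool.Agent.H793R3.Rok.C

set_option autoImplicit false
set_option linter.unusedSectionVars false
open MeasureTheory Filter Topology
open Pool.Agent.H716R2 hiding BM
open Pool.Agent.H293R3.RM

namespace Pool.Agent.H793R3.Rok

variable {X : Type*} [MeasurableSpace X]

/-- indicator function -/
noncomputable def ind (A : Set X) : X → ℝ := A.indicator fun _ => 1

theorem ind_bm {A : Set X} (hA : MeasurableSet A) : BM (ind A) := by
  refine ⟨measurable_const.indicator hA, 1, fun x => ?_⟩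
  unfold ind
  by_cases h : x ∈ A <;> simp [h]

theorem dev_ind {μ : Measure X} [IsProbabilityMeasure μ] {T : X ≃ᵐ X} {r : ℕ}
    (A : Fin r → Set X) (hA : ∀ i, MeasurableSet (A i)) (t : Fin r → ℕ) :
    dev μ T (fun i => ind (A i)) t
      = μ.real (⋂ i, (⇑T)^[t i] ⁻¹' A i) - ∏ i, μ.real (A i) := by
  unfold dev ind
  congr 1
  · have h1 : ∀ x, ∏ i, (A i).indicator (fun _ => (1 : ℝ)) ((⇑T)^[t i] x)
        = (⋂ i, (⇑T)^[t i] ⁻¹' A i).indicator (fun _ => (1 : ℝ)) x :=
      fun x => prod_indicator_eq (𝕜 := ℝ) T t A x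
    simp only [h1]
    rw [integral_indicator (MeasurableSet.iInter fun i => (iter_meas T (t i)) (hA i))]
    simp
  · refine Finset.prod_congr rfl fun i _ => ?_
    rw [integral_indicator (hA i)]
    simp

/-- From sequences of times to gaps, for sets indexed by `ℕ`. -/
theorem mixK_of_dev {μ : Measure X} [IsProbabilityMeasure μ] {T : X ≃ᵐ X} {k : ℕ}
    (h : ∀ A : Fin (k + 2) → Set X, (∀ i, MeasurableSet (A i)) →
      ∀ s : ℕ → Fin (k + 2) → ℕ, Spread s → ∀ ε : ℝ, 0 < ε →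
      ∀ᶠ n in atTop, |dev μ T (fun i => ind (A i)) (s n)| < ε) : MixK μ T (k + 1) := by
  intro A hA ε hε
  obtain ⟨N, hN⟩ := forall_of_spread (r := k + 1)
    (fun t : Fin (k + 2) → ℕ => |dev μ T (fun i : Fin (k + 2) => ind (A i)) t| < ε)
    (fun s hs => h (fun i => A i) (fun i => hA i) s hs ε hε)
  refine ⟨N, fun m hm => ?_⟩
  have h1 := hN m hm
  rw [dev_ind _ (fun i => hA i)] at h1
  rw [iInter_range_eq, Finset.prod_range]
  exact h1

/-- function version -/
theorem fun_version {μ : Measure X} [IsProbabilityMeasure μ] {T : X ≃ᵐ X}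
    (hT : MeasurePreserving T μ μ) {k : ℕ} (hk : 1 ≤ k) (hmix : MixK μ T k)
    (hdiag : ∀ f : X → ℕ, Measurable f → (∀ x, f x ≤ k + 2) → ∀ ε : ℝ, 0 < ε →
      ∃ N : ℕ, ∀ m : ℕ → ℕ, (∀ j < k + 1, N ≤ m j) →
        |∫ x, ∏ i ∈ Finset.range (k + 2), (f ((⇑T)^[∑ j ∈ Finset.range i, m j] x) : ℝ) ∂μ
          - (∫ x, (f x : ℝ) ∂μ) ^ (k + 2)| < ε) : MixK μ T (k + 1) := by
  classical
  refine mixK_of_dev fun A hA s hs ε hε => ?_
  refine main hT hk (factSet_of_mixK hT hmix) (fun i => ind_bm (hA i)) ?_ s hs hε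
  intro c s' hs' δ hδ
  let f : X → ℕ := fun x => ∑ j, (A j).indicator (fun _ => (1 : ℕ)) ((⇑T)^[c j] x)
  have hfm : Measurable f := by
    refine Finset.measurable_sum _ fun j _ => ?_
    exact (measurable_const.indicator (hA j)).comp (iter_meas T (c j))
  have hfb : ∀ x, f x ≤ k + 2 := by
    intro x
    have h1 : f x ≤ ∑ _j : Fin (k + 2), 1 := by
      refine Finset.sum_le_sum fun j _ => ?_
      by_cases h : (⇑T)^[c j] x ∈ A j <;> simp [h]
    simpa using h1
  have hfr : ∀ x, (f x : ℝ) = ∑ j, ind (A j) ((⇑T)^[c j] x) := by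
    intro x
    simp only [f, ind]
    rw [Nat.cast_sum]
    refine Finset.sum_congr rfl fun j _ => ?_
    by_cases h : (⇑T)^[c j] x ∈ A j <;> simp [h]
  have hbm : BM (fun x => ∑ j, ind (A j) ((⇑T)^[c j] x)) := by
    refine ⟨Finset.measurable_sum _ fun j _ => ((ind_bm (hA j)).comp T (c j)).meas,
      (k + 2 : ℝ), fun x => ?_⟩
    rw [← hfr x]
    simp only [Real.norm_natCast]
    exact_mod_cast hfb x
  refine spread_of_gaps (r := k + 1) (fun t : Fin (k + 2) → ℕ => |dev μ T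
    (fun _ : Fin (k + 2) => fun x => ∑ j, ind (A j) ((⇑T)^[c j] x)) t| < δ) ?_ ?_ s' hs'
  · obtain ⟨N, hN⟩ := hdiag f hfm hfb δ hδ
    refine ⟨N, fun m hm => ?_⟩
    have h1 := hN m hm
    unfold dev
    simp only [← hfr]
    simp only [Finset.prod_range, Finset.prod_const, Finset.card_univ, Fintype.card_fin] at h1 ⊢
    exact h1
  · intro t c' ht
    have := dev_shift (T := T) hT (r := k + 2)
      (f := fun _ : Fin (k + 2) => fun x => ∑ j, ind (A j) ((⇑T)^[c j] x)) (fun _ => hbm) t c'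
    rw [this]
    exact ht

end Pool.Agent.H793R3.Rok
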